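import Pool.Agent.MP_3ee8cb_gt.DNTR.Fin

/-! The front transplanted to de Sitter space, with explicit constants. -/

namespace Pool.Agent.MP_3ee8cb_gt.DFT

open DN DNTR Set
open scoped RealInnerProductSpace

variable [Dim]

theorem tr45 (hpol : SPOL) {G : ℝ} (hG : G = Real.exp 2) : ∀ δ, 0 ≤ δ → δ ≤ 1 →
    OnP δ fun m lg σ a => ∀ o, (∀ v, ‖v‖ = 1 → a * ‖lg ((σ v).1, o)‖ ≤ 3 / 2) →
      ∃ t ξ, DS t ξ ∧ ∀ v, ‖v‖ = 1 → ‖ξ v‖ ≤ G * (1 + 3 * G) ∧ ∀ e (β : ℝ), 0 ≤ β → β ≤ 1 →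
        a * ‖m.A σ v e‖ ≤ β * ‖m.A' σ v e‖ →
        ‖fderiv ℝ ξ v e‖ ≤ G * (1 + 3 * G) * ‖m.A' σ v e‖ ∧
        (1 - 4 * G * (G * (1 + 3 * G)) * δ * (a * ‖lg ((σ v).1, o)‖) * β) * ‖m.A' σ v e‖ ^ 2 ≤
          ‖fderiv ℝ ξ v e‖ ^ 2 - fderiv ℝ t v e ^ 2 ∧
        |fderiv ℝ t v e| ≤ G * (1 + 3 * G) * (a * ‖lg ((σ v).1, o)‖) * ‖m.A' σ v e‖ := by
  have G0 : 0 < G := hG ▸ Real.exp_pos 2
  have G2 : Real.exp (2 * (3 / 2) + 1) = G ^ 2 := by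
    rw [hG, ← Real.exp_nat_mul]
    norm_num
  intro δ δ0 δ1 m lg σ a h hj hl hf a0 u0 ua dn o ho
  obtain ⟨P, hP⟩ := exists_tp h a
  refine ⟨_, _, ph_ds h hP hl hf o, fun v hv => ?_⟩
  have v0 : v ≠ 0 := by
    rintro rfl
    simp at hv
  obtain ⟨r, hr⟩ : ∃ r, r = a * ‖lg ((σ v).1, o)‖ := ⟨_, rfl⟩
  have r0 : 0 ≤ r := hr ▸ mul_nonneg a0.le (norm_nonneg _)
  have r1 : r ≤ 3 / 2 := hr ▸ ho v hv
  have hb' : ∀ t, a * ‖(m.Z t (st lg σ o v).1).2‖ = r := fun t => by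
    rw [hj.norm, hr]
    rfl
  have hb : ∀ t, |a| * ‖(m.Z t (st lg σ o v).1).2‖ ≤ 3 / 2 := fun t => by
    rw [abs_of_pos a0, hb']
    exact r1
  have hX : ∀ t ∈ Icc (0 : ℝ) 1, ‖(P t (st lg σ o v).1 (st lg σ o v).2).2‖ ≤ G := fun t ht => by
    have := (bo0 h hP (st lg σ o v).1 (st lg σ o v).2).euc (φ := 0) hb (fun _ _ => by simp) ht
    simp only [hP.zero, G2] at this
    refine le_of_sq G0.le (this.trans (le_of_eq ?_))
    simp [st, hf.norm v v0, hv]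
  have o1 : (1 : ℝ) ∈ Icc (0 : ℝ) 1 := right_mem_Icc.mpr zero_le_one
  refine ⟨(hX 1 o1).trans (by nlinarith), fun e β β0 β1 hβ => ?_⟩
  obtain ⟨ζ, j0, j1, e0, e1, e2, e3⟩ := ends h hP hl hf o v0 e
  rw [← e2, ← e3, ← hr]
  obtain ⟨α, hα⟩ : ∃ α, α = ‖m.A' σ v e‖ := ⟨_, rfl⟩
  have α0 : 0 ≤ α := hα ▸ norm_nonneg _
  rw [← hα] at hβ ⊢
  have B := bo1 h hP hj (st lg σ o v) ζ
  have hF : ∀ t ∈ Icc (0 : ℝ) 1, ‖kt m a (m.Z t (st lg σ o v).1).1 (m.Z t (st lg σ o v).1).2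
      (m.J (st lg σ o v).1 ζ.1 t) (P t (st lg σ o v).1 (st lg σ o v).2).2‖ ≤
        2 * δ * r * (β * α) * G := fun t ht => by
    refine (hpol m (a ^ 2) ((1 + δ) * a ^ 2) h hj ua dn _ _ _ _).trans ?_
    have c1 := jac_le h hj u0 _ _ j1 ht
    rw [j0] at c1
    have c2 : a * ‖m.J (st lg σ o v).1 ζ.1 t‖ ≤ β * α :=
      (mul_le_mul_of_nonneg_left c1 a0.le).trans hβ
    have c3 : 2 * ((1 + δ) * a ^ 2 - a ^ 2) * ‖(m.Z t (st lg σ o v).1).2‖ *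
        ‖m.J (st lg σ o v).1 ζ.1 t‖ = 2 * δ * r * (a * ‖m.J (st lg σ o v).1 ζ.1 t‖) := by
      rw [← hb' t]
      ring
    rw [c3]
    exact mul_le_mul (mul_le_mul_of_nonneg_left c2 (by positivity)) (hX t ht) (norm_nonneg _)
      (by positivity)
  have hφ : 2 * δ * r * (β * α) * G ≤ 3 * G * α := by
    have c1 : δ * r ≤ 3 / 2 := by nlinarith
    have c2 : δ * r * β ≤ 3 / 2 := by nlinarith [mul_nonneg δ0 r0]
    nlinarith [mul_nonneg G0.le α0]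
  have φ0 : 0 ≤ 2 * δ * r * (β * α) * G := by positivity
  have hM : ∀ t ∈ Icc (0 : ℝ) 1, ‖ps1 m a P (st lg σ o v) ζ t‖ ≤ G * (1 + 3 * G) * α :=
    fun t ht => by
      have := B.euc hb hF ht
      rw [G2, e0, e1, ← hα] at this
      refine le_of_sq (by positivity) (this.trans ?_)
      have c1 : (2 * δ * r * (β * α) * G) ^ 2 ≤ (3 * G * α) ^ 2 := pow_le_pow_left₀ φ0 hφ 2
      have c2 : 0 ^ 2 + α ^ 2 + (2 * δ * r * (β * α) * G) ^ 2 ≤ ((1 + 3 * G) * α) ^ 2 := by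
        nlinarith [mul_nonneg G0.le (sq_nonneg α)]
      calc _ ≤ G ^ 2 * ((1 + 3 * G) * α) ^ 2 := mul_le_mul_of_nonneg_left c2 (sq_nonneg G)
        _ = _ := by ring
  refine ⟨hM 1 o1, ?_, ?_⟩
  · have := (abs_le.mp (B.lor hM hF)).1
    rw [e0, e1, ← hα] at this
    nlinarith
  · have hd : ∀ s ∈ Icc (0 : ℝ) 1, |a * ⟪(m.Z s (st lg σ o v).1).2,
        ps1 m a P (st lg σ o v) ζ s⟫| ≤ G * (1 + 3 * G) * r * α := fun s hs => by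
      rw [abs_mul, abs_of_pos a0]
      calc _ ≤ a * (‖(m.Z s (st lg σ o v).1).2‖ * ‖ps1 m a P (st lg σ o v) ζ s‖) :=
            mul_le_mul_of_nonneg_left (abs_real_inner_le_norm _ _) a0.le
        _ = r * ‖ps1 m a P (st lg σ o v) ζ s‖ := by rw [← mul_assoc, hb']
        _ ≤ r * (G * (1 + 3 * G) * α) := mul_le_mul_of_nonneg_left (hM s hs) r0
        _ = _ := by ring
    have k1 := le_of_der B.d0 (fun s hs => (neg_le_abs _).trans (hd s hs)) o1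
    have k2 := le_of_der (fun s => (B.d0 s).neg) (fun s hs => by
      rw [neg_neg]
      exact (le_abs_self _).trans (hd s hs)) o1
    simp only [Pi.neg_apply, e0] at k1 k2
    exact abs_le.2 ⟨by linarith, by linarith⟩

end Pool.Agent.MP_3ee8cb_gt.DFT
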